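import Pool.Agent.Helper92.Ru.GoalsS

/-!
Packet SubsetProd (S15) of `MP_d1d051_nt`.
-/

set_option autoImplicit false

open Finset

namespace Pool.Agent.Helper48.Ru

open Pool.Agent.Helper92.Ru

theorem prod_emb {r N : ℕ} (I : JJ r N) (f : Fin N → ℝ) :
    ∏ a, f (I.emb a) = ∏ i ∈ I.1, f i := by
  have h1 : I.1 = Finset.univ.map I.emb.toEmbedding := by
    unfold JJ.emb
    rw [Finset.map_orderEmbOfFin_univ]
  conv_rhs => rw [h1]
  rw [Finset.prod_map]
  rfl

theorem card_count {r N : ℕ} (hr : 1 ≤ r) (i : Fin N) :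
    ((Finset.univ.powersetCard r).filter fun I : Finset (Fin N) => i ∈ I).card
      = (N - 1).choose (r - 1) := by
  have h1 : (Finset.univ.powersetCard r).filter (fun I : Finset (Fin N) => i ∈ I)
      = ((Finset.univ.erase i).powersetCard (r - 1)).image (insert i) := by
    ext I
    simp only [Finset.mem_filter, Finset.mem_powersetCard, Finset.mem_image]
    constructor
    · rintro ⟨⟨_, h2⟩, h3⟩
      refine ⟨I.erase i, ⟨Finset.erase_subset_erase _ (Finset.subset_univ _), ?_⟩,
        Finset.insert_erase h3⟩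
      rw [Finset.card_erase_of_mem h3, h2]
    · rintro ⟨J, ⟨h2, h3⟩, rfl⟩
      have h4 : i ∉ J := fun h => Finset.notMem_erase i _ (h2 h)
      refine ⟨⟨Finset.subset_univ _, ?_⟩, Finset.mem_insert_self _ _⟩
      rw [Finset.card_insert_of_notMem h4, h3]
      omega
  rw [h1, Finset.card_image_of_injOn, Finset.card_powersetCard,
    Finset.card_erase_of_mem (Finset.mem_univ _), Finset.card_univ, Fintype.card_fin]
  intro J hJ K hK hJK
  rw [Finset.mem_coe, Finset.mem_powersetCard] at hJ hK
  have h4 : i ∉ J := fun h => Finset.notMem_erase i _ (hJ.1 h)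
  have h5 : i ∉ K := fun h => Finset.notMem_erase i _ (hK.1 h)
  have h6 : insert i J = insert i K := hJK
  rw [← Finset.erase_insert h4, h6, Finset.erase_insert h5]

theorem subsetProd : SubsetProd := by
  intro r N hr _ f
  have h1 : ∏ I : JJ r N, ∏ a, f (I.emb a) = ∏ I : JJ r N, ∏ i ∈ I.1, f i :=
    Finset.prod_congr rfl fun I _ => prod_emb I f
  rw [h1]
  have h2 : ∏ I : JJ r N, ∏ i ∈ I.1, f i
      = ∏ I ∈ (Finset.univ.powersetCard r : Finset (Finset (Fin N))), ∏ i ∈ I, f i := by
    refine (Finset.prod_subtype (Finset.univ.powersetCard r) ?_ (fun I => ∏ i ∈ I, f i)).symm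
    intro I
    rw [Finset.mem_powersetCard]
    exact ⟨fun h => h.2, fun h => ⟨Finset.subset_univ _, h⟩⟩
  rw [h2]
  have h3 : ∀ I ∈ (Finset.univ.powersetCard r : Finset (Finset (Fin N))),
      ∏ i ∈ I, f i = ∏ i : Fin N, if i ∈ I then f i else 1 := by
    intro I _
    rw [Finset.prod_ite_mem, Finset.univ_inter]
  rw [Finset.prod_congr rfl h3, Finset.prod_comm, ← Finset.prod_pow]
  apply Finset.prod_congr rfl
  intro i _
  rw [← Finset.prod_filter, Finset.prod_const, card_count hr]

end Pool.Agent.Helper48.Ru
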